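import Pool.Agent.Y110.FJ.Stm

/-!
# Project FJ, job FJ-GPI: functoriality of graph products
-/

set_option autoImplicit false
set_option linter.all false

namespace Pool.Agent.Y261.FJ

open Pool.Agent.Y110.FJ

section general

variable {V : Type} (Λ : SimpleGraph V) (A : V → Type) [∀ v, Group (A v)]

/-- vertex groups of adjacent vertices commute -/
theorem of_comm {v w : V} (h : Λ.Adj v w) (a : A v) (b : A w) :
    GrP.of Λ A v a * GrP.of Λ A w b = GrP.of Λ A w b * GrP.of Λ A v a := by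
  have h1 : (QuotientGroup.mk' (Subgroup.normalClosure (commRel Λ A)))
      (Monoid.CoprodI.of a * Monoid.CoprodI.of b * (Monoid.CoprodI.of a)⁻¹ *
        (Monoid.CoprodI.of b)⁻¹) = 1 := by
    rw [← MonoidHom.mem_ker, QuotientGroup.ker_mk']
    exact Subgroup.subset_normalClosure ⟨v, w, a, b, h, rfl⟩
  rw [map_mul, map_mul, map_mul, map_inv, map_inv, mul_inv_eq_one, mul_inv_eq_iff_eq_mul] at h1
  exact h1

variable {Λ A}

/-- homomorphisms from a graph product -/
noncomputable def glift {H : Type} [Group H] (f : ∀ v, A v →* H)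
    (hf : ∀ v w, Λ.Adj v w → ∀ (a : A v) (b : A w), f v a * f w b = f w b * f v a) :
    GrP Λ A →* H :=
  QuotientGroup.lift _ (Monoid.CoprodI.lift f) (by
    have h1 : Subgroup.normalClosure (commRel Λ A) ≤ (Monoid.CoprodI.lift f).ker := by
      apply Subgroup.normalClosure_le_normal
      rintro r ⟨v, w, a, b, h, rfl⟩
      show _ ∈ (Monoid.CoprodI.lift f).ker
      rw [MonoidHom.mem_ker, map_mul, map_mul, map_mul, map_inv, map_inv, Monoid.CoprodI.lift_of,
        Monoid.CoprodI.lift_of, hf v w h a b, mul_inv_cancel_right, mul_inv_cancel]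
    exact h1)

@[simp]
theorem glift_of {H : Type} [Group H] (f : ∀ v, A v →* H)
    (hf : ∀ v w, Λ.Adj v w → ∀ (a : A v) (b : A w), f v a * f w b = f w b * f v a)
    (v : V) (a : A v) : glift (Λ := Λ) f hf (GrP.of Λ A v a) = f v a := by
  show (Monoid.CoprodI.lift f) (Monoid.CoprodI.of a) = f v a
  rw [Monoid.CoprodI.lift_of]

/-- two homomorphisms which agree on the vertex groups are equal -/
theorem ghom_ext {H : Type} [Monoid H] {φ ψ : GrP Λ A →* H}
    (h : ∀ v (a : A v), φ (GrP.of Λ A v a) = ψ (GrP.of Λ A v a)) : φ = ψ := by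
  apply QuotientGroup.monoidHom_ext
  apply Monoid.CoprodI.ext_hom
  intro v
  ext a
  exact h v a

variable (Λ A)

/-- the subgroup generated by the vertex groups of the vertices of `S` -/
def gc (S : Set V) : Subgroup (GrP Λ A) :=
  Subgroup.closure {x | ∃ v ∈ S, ∃ a : A v, x = GrP.of Λ A v a}

variable {Λ A}

theorem gc_mono {S T : Set V} (h : S ⊆ T) : gc Λ A S ≤ gc Λ A T := by
  apply Subgroup.closure_mono
  rintro x ⟨v, hv, a, rfl⟩
  exact ⟨v, h hv, a, rfl⟩

theorem of_mem_gc {S : Set V} {v : V} (hv : v ∈ S) (a : A v) : GrP.of Λ A v a ∈ gc Λ A S :=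
  Subgroup.subset_closure ⟨v, hv, a, rfl⟩

/-- every element lies in the subgroup of a finite set of vertices -/
theorem exists_gc (x : GrP Λ A) : ∃ S : Set V, S.Finite ∧ x ∈ gc Λ A S := by
  obtain ⟨y, rfl⟩ := QuotientGroup.mk'_surjective _ x
  induction y using Monoid.CoprodI.induction_on with
  | one => exact ⟨∅, Set.finite_empty, by rw [map_one]; exact Subgroup.one_mem _⟩
  | of v a => exact ⟨{v}, Set.finite_singleton v, of_mem_gc (Set.mem_singleton v) a⟩
  | mul y z hy hz =>
    obtain ⟨S, hS, hyS⟩ := hy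
    obtain ⟨T, hT, hzT⟩ := hz
    refine ⟨S ∪ T, hS.union hT, ?_⟩
    rw [map_mul]
    exact Subgroup.mul_mem _ (gc_mono Set.subset_union_left hyS)
      (gc_mono Set.subset_union_right hzT)

/-- every finite set of elements lies in the subgroup of a finite set of vertices -/
theorem exists_gc_finite {E : Set (GrP Λ A)} (hE : E.Finite) :
    ∃ S : Set V, S.Finite ∧ E ⊆ gc Λ A S := by
  choose S hS1 hS2 using fun x : GrP Λ A => exists_gc (Λ := Λ) (A := A) x
  refine ⟨⋃ x ∈ E, S x, hE.biUnion fun x _ => hS1 x, fun x hx => ?_⟩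
  exact gc_mono (Set.subset_biUnion_of_mem hx) (hS2 x)

theorem gc_univ : gc Λ A Set.univ = ⊤ := by
  rw [eq_top_iff]
  intro x _
  obtain ⟨S, -, hx⟩ := exists_gc x
  exact gc_mono (Set.subset_univ S) hx

end general

section const

variable {V W : Type} {Λ : SimpleGraph V} {Λ' : SimpleGraph W} (A : Type) [Group A]

/-- the homomorphism of graph products defined by a homomorphism of graphs -/
noncomputable def gmap (j : V → W) (hj : ∀ v w, Λ.Adj v w → Λ'.Adj (j v) (j w)) :
    GrP Λ (fun _ => A) →* GrP Λ' (fun _ => A) :=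
  glift (fun v => GrP.of Λ' (fun _ => A) (j v)) fun v w h a b => of_comm Λ' (fun _ => A) (hj v w h) a b

@[simp]
theorem gmap_of (j : V → W) (hj : ∀ v w, Λ.Adj v w → Λ'.Adj (j v) (j w)) (v : V) (a : A) :
    gmap A j hj (GrP.of Λ (fun _ => A) v a) = GrP.of Λ' (fun _ => A) (j v) a :=
  glift_of (Λ := Λ) (A := fun _ => A) (fun v => GrP.of Λ' (fun _ => A) (j v)) _ v a

open Classical in
/-- the left inverse: the vertex groups outside the range are killed -/
theorem gret (j : V → W) (hinj : Function.Injective j)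
    (hj : ∀ v w, Λ'.Adj (j v) (j w) → Λ.Adj v w) :
    ∃ ρ : GrP Λ' (fun _ => A) →* GrP Λ (fun _ => A),
      (∀ v (a : A), ρ (GrP.of Λ' (fun _ => A) (j v) a) = GrP.of Λ (fun _ => A) v a) ∧
      ∀ w, w ∉ Set.range j → ∀ a : A, ρ (GrP.of Λ' (fun _ => A) w a) = 1 := by
  refine ⟨glift (fun w => if h : ∃ v, j v = w then GrP.of Λ (fun _ => A) h.choose else 1)
    (fun w w' hww a b => ?_), fun v a => ?_, fun w hw a => ?_⟩
  · by_cases h : ∃ v, j v = w
    · by_cases h' : ∃ v, j v = w'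
      · rw [dif_pos h, dif_pos h']
        apply of_comm
        apply hj
        rw [h.choose_spec, h'.choose_spec]
        exact hww
      · rw [dif_neg h']
        simp
    · rw [dif_neg h]
      simp
  · rw [glift_of]
    have h : ∃ v', j v' = j v := ⟨v, rfl⟩
    rw [dif_pos h, hinj h.choose_spec]
  · rw [glift_of]
    have h : ¬ ∃ v', j v' = w := fun ⟨v', hv'⟩ => hw ⟨v', hv'⟩
    rw [dif_neg h]
    rfl

/-- full subgraphs give subgroups -/
theorem gmap_injective (j : V → W) (hinj : Function.Injective j)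
    (hj : ∀ v w, Λ'.Adj (j v) (j w) ↔ Λ.Adj v w) :
    Function.Injective (gmap (Λ := Λ) (Λ' := Λ') A j fun v w => (hj v w).2) := by
  obtain ⟨ρ, h1, -⟩ := gret (Λ := Λ) (Λ' := Λ') A j hinj (fun v w => (hj v w).1)
  have h2 : ρ.comp (gmap A j fun v w => (hj v w).2) = MonoidHom.id _ := by
    apply ghom_ext
    intro v a
    rw [MonoidHom.comp_apply, gmap_of, h1, MonoidHom.id_apply]
  intro x y hxy
  have h3 := DFunLike.congr_fun h2 x
  have h4 := DFunLike.congr_fun h2 y
  rw [MonoidHom.comp_apply, MonoidHom.id_apply] at h3 h4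
  rw [← h3, ← h4, hxy]

/-- composition -/
theorem gmap_comp {U : Type} {Λ'' : SimpleGraph U} (j : V → W)
    (hj : ∀ v w, Λ.Adj v w → Λ'.Adj (j v) (j w)) (k : W → U)
    (hk : ∀ v w, Λ'.Adj v w → Λ''.Adj (k v) (k w)) (x : GrP Λ (fun _ => A)) :
    gmap (Λ' := Λ'') A k hk (gmap A j hj x) = gmap (Λ' := Λ'') A (fun v => k (j v))
      (fun v w h => hk _ _ (hj v w h)) x := by
  have h2 : (gmap (Λ := Λ') (Λ' := Λ'') A k hk).comp (gmap (Λ := Λ) A j hj) =
      gmap (Λ' := Λ'') A (fun v => k (j v)) (fun v w h => hk _ _ (hj v w h)) := by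
    apply ghom_ext
    intro v a
    rw [MonoidHom.comp_apply, gmap_of, gmap_of, gmap_of]
  exact DFunLike.congr_fun h2 x

/-- an automorphism of the graph gives an automorphism of the graph product -/
noncomputable def gperm (τ : Equiv.Perm V) (hτ : ∀ v w, Λ.Adj (τ v) (τ w) ↔ Λ.Adj v w) :
    MulAut (GrP Λ (fun _ => A)) :=
  MonoidHom.toMulEquiv (gmap A τ fun v w => (hτ v w).2)
    (gmap A τ.symm fun v w h => (hτ _ _).1 (by simpa using h))
    (by
      apply ghom_ext
      intro v a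
      rw [MonoidHom.comp_apply, gmap_of, gmap_of, MonoidHom.id_apply, Equiv.symm_apply_apply])
    (by
      apply ghom_ext
      intro v a
      rw [MonoidHom.comp_apply, gmap_of, gmap_of, MonoidHom.id_apply, Equiv.apply_symm_apply])

theorem gperm_isPerm (τ : Equiv.Perm V) (hτ : ∀ v w, Λ.Adj (τ v) (τ w) ↔ Λ.Adj v w) :
    IsPerm Λ A τ (gperm A τ hτ) := fun v a =>
  gmap_of (Λ := Λ) (Λ' := Λ) A (⇑τ) (fun v w => (hτ v w).2) v a

variable {A}

/-- `IsPerm` determines the automorphism -/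
theorem isPerm_unique {g : V ≃ V} {σ σ' : MulAut (GrP Λ (fun _ => A))} (h : IsPerm Λ A g σ)
    (h' : IsPerm Λ A g σ') : σ = σ' := by
  apply MulEquiv.toMonoidHom_injective
  apply ghom_ext
  intro v a
  exact (h v a).trans (h' v a).symm

theorem isPerm_one : IsPerm Λ A (Equiv.refl V) (1 : MulAut (GrP Λ (fun _ => A))) :=
  fun v a => rfl

theorem isPerm_mul {g g' : Equiv.Perm V} {σ σ' : MulAut (GrP Λ (fun _ => A))} (h : IsPerm Λ A g σ)
    (h' : IsPerm Λ A g' σ') : IsPerm Λ A (g * g' : Equiv.Perm V) (σ * σ') := by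
  intro v a
  rw [MulAut.mul_apply, h' v a, h (g' v) a]
  rfl

theorem isPerm_pow {g : Equiv.Perm V} {σ : MulAut (GrP Λ (fun _ => A))} (h : IsPerm Λ A g σ)
    (k : ℕ) : IsPerm Λ A (g ^ k : Equiv.Perm V) (σ ^ k) := by
  induction k with
  | zero =>
    rw [pow_zero, pow_zero]
    exact isPerm_one
  | succ k ih =>
    rw [pow_succ, pow_succ]
    exact isPerm_mul ih h

/-- finite order -/
theorem isPerm_pow_eq_one {g : Equiv.Perm V} {σ : MulAut (GrP Λ (fun _ => A))}
    (h : IsPerm Λ A g σ) {k : ℕ} (hk : g ^ k = 1) : σ ^ k = 1 := by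
  have h1 := isPerm_pow h k
  rw [hk] at h1
  exact isPerm_unique h1 isPerm_one

theorem gperm_pow_eq_one (τ : Equiv.Perm V) (hτ : ∀ v w, Λ.Adj (τ v) (τ w) ↔ Λ.Adj v w) {k : ℕ}
    (hk : τ ^ k = 1) : gperm A τ hτ ^ k = 1 :=
  isPerm_pow_eq_one (gperm_isPerm A τ hτ) hk

variable (A)

/-- the image of the subgroup of a set of vertices -/
theorem map_gc (j : V → W) (hj : ∀ v w, Λ.Adj v w → Λ'.Adj (j v) (j w)) (S : Set V) :
    (gc Λ (fun _ => A) S).map (gmap A j hj) = gc Λ' (fun _ => A) (j '' S) := by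
  unfold gc
  rw [MonoidHom.map_closure]
  congr 1
  ext x
  constructor
  · rintro ⟨y, ⟨v, hv, a, rfl⟩, rfl⟩
    exact ⟨j v, ⟨v, hv, rfl⟩, a, gmap_of A j hj v a⟩
  · rintro ⟨w, ⟨v, hv, rfl⟩, a, rfl⟩
    exact ⟨_, ⟨v, hv, a, rfl⟩, gmap_of A j hj v a⟩

theorem range_gmap (j : V → W) (hj : ∀ v w, Λ.Adj v w → Λ'.Adj (j v) (j w)) :
    (gmap A j hj).range = gc Λ' (fun _ => A) (Set.range j) := by
  rw [MonoidHom.range_eq_map, ← gc_univ, map_gc, Set.image_univ]

/-- the inclusion of the graph product of a full subgraph -/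
noncomputable def gincl (S : Set V) : GrP (Λ.induce S) (fun _ => A) →* GrP Λ (fun _ => A) :=
  gmap A Subtype.val fun _ _ h => h

@[simp]
theorem gincl_of (S : Set V) (v : S) (a : A) :
    gincl (Λ := Λ) A S (GrP.of (Λ.induce S) (fun _ => A) v a) = GrP.of Λ (fun _ => A) v.1 a :=
  gmap_of A _ _ v a

theorem gincl_injective (S : Set V) : Function.Injective (gincl (Λ := Λ) A S) :=
  gmap_injective A Subtype.val Subtype.val_injective fun _ _ => Iff.rfl

theorem range_gincl (S : Set V) : (gincl (Λ := Λ) A S).range = gc Λ (fun _ => A) S := by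
  have h := range_gmap (Λ := Λ.induce S) (Λ' := Λ) A Subtype.val fun _ _ h => h
  rw [Subtype.range_coe] at h
  exact h

end const

end Pool.Agent.Y261.FJ
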